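import Pool.Agent.QD.KDefs

/-!
# MD/E-Defs2: the square of the completed L-function
-/

namespace Pool.Agent.MD

open NumberField IsDedekindDomain Pool.Agent.HWR Pool.Agent.QD

variable {T : Finset ℕ} (D : LocData T)

/-- the square of the completed function is entire, of finite order in vertical strips, and
invariant under `s ↦ 2 - s` -/
def HW2 (a : ℕ → ℝ) (F : Type) [Field F] [NumberField F] : Prop :=
  ∃ L2 : ℂ → ℂ, Differentiable ℂ L2 ∧ FinOrd L2 ∧ (∀ s : ℂ, L2 s = L2 (2 - s)) ∧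
    ∀ s : ℂ, 3 / 2 < s.re → L2 s = D.Lam a F s ^ 2

/-- Meromorphic version: quotient of two entire functions of finite order in strips. -/
def MER2 (a : ℕ → ℝ) (F : Type) [Field F] [NumberField F] : Prop :=
  ∃ f g : ℂ → ℂ, Differentiable ℂ f ∧ Differentiable ℂ g ∧ FinOrd f ∧ FinOrd g ∧
    (∀ s : ℂ, 3 / 2 < s.re → g s ≠ 0) ∧
    (∃ c : ℝ, 0 < c ∧ ∃ k : ℕ, ∀ s : ℂ, s.re = 3 → c * Real.exp (-(1 + |s.im|) ^ k) ≤ ‖g s‖) ∧
    (∀ s : ℂ, 3 / 2 < s.re → g s * D.Lam a F s ^ 2 = f s) ∧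
    ∀ s : ℂ, f s * g (2 - s) = f (2 - s) * g s

end Pool.Agent.MD
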