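import Pool.Agent.MD.E.Bes
import Pool.Agent.MD.E.Pick
import Pool.Agent.MD.I.Good
import Pool.Agent.MD.I.Sys
import Pool.Agent.LD.I.GInvB
import Pool.Agent.LD.E.Fin

/-!
# MD/E-Edge: on the line `Re s = 3/2` the function `LT` cannot grow like `δ^(-1/2)`

PLAN (adapt LD/E/Fin.lean, `edge`; its private helpers can be copied).  `exists_goodV`: `T1`, `S1`, `Nic T1 S1`; `S = V ∪ S1` (`Nic T1 S`: same `Nic.ex`), system `sys S D a` with `isSys0` (LD/I/Sys0),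
`isKn` (MD/I/Sys, with `GGX_inv`), `LT_split` (QD/In/EllX): `LT = Ls * ∏ efac`, the finite product is continuous near `z`, so `‖Ls (z + δ)‖² ≥ c' / δ` for small `δ`, and `log_Ls` (LD/E/Log) gives `h3` of
`bessel` with `κ = 1/2`, `m δ v = lam v * Re (N_v^(-(z + δ)))` (`|m δ v| ≤ 2 √N N^(-(3/2 + δ)) = 2 N^(-(1+δ))`; for `δ` outside `(0, δ0]` the bound also holds for all `δ` by the same computation), `B = 2`,
`n = 16`: `4 < 17/4`.
`exists_many V 16`: `x i`; `b i : Io S →₀ ℕ` with `b i v = ordK v (x i)` (`ordK_finite`), `c i = mk (x i) ∈ KV S V` (`mem_KV`), `Rel S (b i) (c i)`.  `ell (b i) (c i)` is entire (`ell_diff`), so bounded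
near `z`, and equals `Ls * Lu (b i) (c i)` (`ell_eq`): hence `‖Lu (b i) (c i) (z + δ)‖ ≤ C δ^(1/2)`: `h4` by `log_Lu` (LD/E/Log), with `χ i v = uK v (x i)` (`uc_of`, QD/In/Cls).
`h0`: `psum_le`, `h1`: `csum_bd`, `h2`: `cmul_bd` (LD/E/Zeta).  Take the maximum of the finitely many constants.
-/

namespace Pool.Agent.MD

open NumberField IsDedekindDomain Pool.Agent.HWR Pool.Agent.QD Pool.Agent.QD.In Pool.Agent.LD

open Filter Topology in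
/-- multiplication by a function continuous and nonzero at `z` -/
private theorem edv_mul {L M E : ℂ → ℂ} {z : ℂ} (hz : z.re = 3 / 2) (hE : ContinuousAt E z)
    (hE0 : E z ≠ 0) (hM : ∀ s : ℂ, 3 / 2 < s.re → M s = L s * E s)
    (h : ∃ c δ0 : ℝ, 0 < c ∧ 0 < δ0 ∧ ∀ δ : ℝ, 0 < δ → δ ≤ δ0 → c / Real.sqrt δ ≤ ‖L (z + (δ : ℂ))‖) :
    ∃ c δ0 : ℝ, 0 < c ∧ 0 < δ0 ∧ ∀ δ : ℝ, 0 < δ → δ ≤ δ0 → c / Real.sqrt δ ≤ ‖M (z + (δ : ℂ))‖ := by
  obtain ⟨c, δ0, hc, hδ0, h⟩ := h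
  have hp := norm_pos_iff.2 hE0
  have h1 : ∀ᶠ w in 𝓝 z, ‖E z‖ / 2 < ‖E w‖ :=
    hE.norm.eventually_const_lt (by linarith)
  obtain ⟨ε, hε, hb⟩ := Metric.eventually_nhds_iff.1 h1
  refine ⟨c * (‖E z‖ / 2), min δ0 (ε / 2), by positivity, by positivity, ?_⟩
  intro δ hδ hδ'
  have hd : dist (z + (δ : ℂ)) z < ε := by
    rw [dist_eq_norm, add_sub_cancel_left, Complex.norm_real, Real.norm_eq_abs, abs_of_pos hδ]
    have := hδ'.trans (min_le_right _ _)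
    linarith
  have hre : 3 / 2 < (z + (δ : ℂ)).re := by
    rw [Complex.add_re, Complex.ofReal_re, hz]
    linarith
  rw [hM _ hre, norm_mul, mul_div_right_comm]
  have h2 := h δ hδ (hδ'.trans (min_le_left _ _))
  have h3 := hb hd
  have h4 := norm_nonneg (L (z + δ))
  exact mul_le_mul h2 h3.le (by positivity) h4

open Filter Topology in
/-- from a lower bound of `Ls` and an upper bound of the product to an upper bound of `Lu` -/
private theorem edv_up {L M E : ℂ → ℂ} {z : ℂ} (hz : z.re = 3 / 2) (hE : ContinuousAt E z)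
    (hM : ∀ s : ℂ, 3 / 2 < s.re → E s = L s * M s)
    (h : ∃ c δ0 : ℝ, 0 < c ∧ 0 < δ0 ∧ ∀ δ : ℝ, 0 < δ → δ ≤ δ0 → c / Real.sqrt δ ≤ ‖L (z + (δ : ℂ))‖) :
    ∃ C δ0 : ℝ, 0 < C ∧ 0 < δ0 ∧ ∀ δ : ℝ, 0 < δ → δ ≤ δ0 → ‖M (z + (δ : ℂ))‖ ≤ C * Real.sqrt δ := by
  obtain ⟨c, δ0, hc, hδ0, h⟩ := h
  have h1 : ∀ᶠ w in 𝓝 z, ‖E w‖ < ‖E z‖ + 1 :=
    hE.norm.eventually_lt_const (by linarith)
  obtain ⟨ε, hε, hb⟩ := Metric.eventually_nhds_iff.1 h1
  have h0 := norm_nonneg (E z)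
  refine ⟨(‖E z‖ + 1) / c, min δ0 (ε / 2), by positivity, by positivity, ?_⟩
  intro δ hδ hδ'
  have hd : dist (z + (δ : ℂ)) z < ε := by
    rw [dist_eq_norm, add_sub_cancel_left, Complex.norm_real, Real.norm_eq_abs, abs_of_pos hδ]
    have := hδ'.trans (min_le_right _ _)
    linarith
  have hre : 3 / 2 < (z + (δ : ℂ)).re := by
    rw [Complex.add_re, Complex.ofReal_re, hz]
    linarith
  have h2 := h δ hδ (hδ'.trans (min_le_left _ _))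
  have h3 := hb hd
  rw [hM _ hre, norm_mul] at h3
  have h4 := norm_nonneg (M (z + δ))
  have h5 : c / Real.sqrt δ * ‖M (z + δ)‖ ≤ ‖E z‖ + 1 :=
    (mul_le_mul_of_nonneg_right h2 h4).trans h3.le
  rw [div_mul_eq_mul_div, le_div_iff₀ hc]
  rw [div_mul_eq_mul_div, div_le_iff₀ (Real.sqrt_pos.2 hδ)] at h5
  linarith

private theorem edv_quad_ne {a : ℕ → ℝ} (ha : ∀ q : ℕ, |a q| ≤ 2 * Real.sqrt q) {q : ℕ}
    (hq : 101 ≤ q) {t : ℂ} (ht : 1 ≤ t.re) :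
    1 - (a q : ℂ) * (q : ℂ) ^ (-t) + (q : ℂ) ^ (1 - 2 * t) ≠ 0 := by
  have hq0 : 0 < q := by omega
  have hq1 : (1 : ℝ) ≤ q := by exact_mod_cast hq0
  have hq2 : (101 : ℝ) ≤ q := by exact_mod_cast hq
  have hqp : (0 : ℝ) < q := by linarith
  intro h0
  have h1 : ‖(a q : ℂ) * (q : ℂ) ^ (-t)‖ ≤ 2 * Real.sqrt q * (q : ℝ)⁻¹ := by
    rw [norm_mul, Complex.norm_natCast_cpow_of_pos hq0, Complex.norm_real, Real.norm_eq_abs,
      Complex.neg_re]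
    refine mul_le_mul (ha q) ?_ (by positivity) (by positivity)
    rw [← Real.rpow_neg_one]
    exact Real.rpow_le_rpow_of_exponent_le hq1 (by linarith)
  have h2 : ‖(q : ℂ) ^ (1 - 2 * t)‖ ≤ (q : ℝ)⁻¹ := by
    rw [Complex.norm_natCast_cpow_of_pos hq0, ← Real.rpow_neg_one]
    refine Real.rpow_le_rpow_of_exponent_le hq1 ?_
    simp
    linarith
  have h3 : 2 * Real.sqrt q * (q : ℝ)⁻¹ ≤ 1 / 2 := by
    have h4 : Real.sqrt q * Real.sqrt q = q := Real.mul_self_sqrt hqp.le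
    have h5 : 10 ≤ Real.sqrt q := by
      rw [show (10 : ℝ) = Real.sqrt 100 by
        rw [show (100 : ℝ) = 10 ^ 2 by norm_num, Real.sqrt_sq (by norm_num)]]
      exact Real.sqrt_le_sqrt (by linarith)
    rw [← div_eq_mul_inv, div_le_iff₀ hqp]
    nlinarith
  have h4 : (q : ℝ)⁻¹ ≤ 1 / 101 := by
    rw [one_div]
    exact inv_anti₀ (by norm_num) hq2
  have h5 : (1 : ℂ) = (a q : ℂ) * (q : ℂ) ^ (-t) - (q : ℂ) ^ (1 - 2 * t) := by
    linear_combination h0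
  have h6 : (1 : ℝ) ≤ ‖(a q : ℂ) * (q : ℂ) ^ (-t)‖ + ‖(q : ℂ) ^ (1 - 2 * t)‖ := by
    calc (1 : ℝ) = ‖(1 : ℂ)‖ := norm_one.symm
      _ = ‖(a q : ℂ) * (q : ℂ) ^ (-t) - (q : ℂ) ^ (1 - 2 * t)‖ := by rw [← h5]
      _ ≤ _ := norm_sub_le _ _
  linarith

private theorem edv_quad_diff (a : ℕ → ℝ) {q : ℕ} (hq : q ≠ 0) :
    Differentiable ℂ fun t : ℂ => 1 - (a q : ℂ) * (q : ℂ) ^ (-t) + (q : ℂ) ^ (1 - 2 * t) := by
  have hq0 : (q : ℂ) ≠ 0 := by exact_mod_cast hq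
  intro t
  refine ((differentiableAt_const _).sub ((differentiableAt_const _).mul ?_)).add ?_
  · exact (differentiableAt_id.neg).const_cpow (Or.inl hq0)
  · exact ((differentiableAt_const _).sub ((differentiableAt_const _).mul
      differentiableAt_id)).const_cpow (Or.inl hq0)

private theorem edv_fac (K : Type) [Field K] [NumberField K] (T : Finset ℕ)
    (hT : ∀ p : ℕ, p.Prime → p < 101 → p ∈ T) (a : ℕ → ℝ)
    (ha : ∀ q : ℕ, |a q| ≤ 2 * Real.sqrt q) (Ls : ℂ → ℂ)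
    (F : Finset (HeightOneSpectrum (𝓞 K))) (hF : ∀ v ∈ F, Away K T v)
    (hLs : ∀ s : ℂ, 3 / 2 < s.re → LT K a T s = Ls s * ∏ v ∈ F, efac a (nrm v) s) {z : ℂ}
    (hz : z.re = 3 / 2) :
    ∃ E : ℂ → ℂ, ContinuousAt E z ∧ E z ≠ 0 ∧ ∀ s : ℂ, 3 / 2 < s.re →
      Ls s = LT K a T s * E s := by
  have hq : ∀ v ∈ F, 101 ≤ nrm v := fun v hv => nrm_away K T hT v (hF v hv)
  obtain ⟨E, hE⟩ : ∃ E : ℂ → ℂ, E = fun t =>
      ∏ v ∈ F, (1 - (a (nrm v) : ℂ) * (nrm v : ℂ) ^ (-t) + (nrm v : ℂ) ^ (1 - 2 * t)) := ⟨_, rfl⟩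
  have hEd : ∀ t : ℂ, 0 < t.re → DifferentiableAt ℂ E t := by
    intro t ht
    rw [hE]
    refine DifferentiableAt.fun_finsetProd fun v hv => ?_
    have := hq v hv
    exact edv_quad_diff a (q := nrm v) (by omega) t
  have hEne : ∀ t : ℂ, 1 ≤ t.re → E t ≠ 0 := by
    intro t ht
    rw [hE]
    exact Finset.prod_ne_zero_iff.2 fun v hv => edv_quad_ne ha (hq v hv) ht
  refine ⟨E, (hEd z (by linarith)).continuousAt, hEne z (by linarith), ?_⟩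
  intro t ht'
  have h3 : (∏ v ∈ F, efac a (nrm v) t) *
      ∏ v ∈ F, (1 - (a (nrm v) : ℂ) * (nrm v : ℂ) ^ (-t) + (nrm v : ℂ) ^ (1 - 2 * t)) = 1 := by
    rw [← Finset.prod_mul_distrib]
    refine Finset.prod_eq_one fun v hv => ?_
    unfold efac
    exact inv_mul_cancel₀ (edv_quad_ne ha (hq v hv) (by linarith))
  rw [hE, hLs t ht', mul_assoc, h3, mul_one]

private theorem edv_low {S : SysD} (hS : IsSys0 S) {z : ℂ} (hz : z.re = 3 / 2)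
    (h : ∃ c δ0 : ℝ, 0 < c ∧ 0 < δ0 ∧ ∀ δ : ℝ, 0 < δ → δ ≤ δ0 → c / Real.sqrt δ ≤ ‖S.Ls (z + (δ : ℂ))‖) :
    ∃ C δ0 : ℝ, 0 < δ0 ∧ ∀ δ : ℝ, 0 < δ → δ ≤ δ0 →
      1 / 2 * Real.log (1 / δ) - C ≤ ∑' v, S.lam v * ((S.N v : ℂ) ^ (-(z + (δ : ℂ)))).re := by
  obtain ⟨c, δ0, hc, hδ0, h⟩ := h
  obtain ⟨C, hC, hL⟩ := log_Ls hS
  refine ⟨C - Real.log c, δ0, hδ0, ?_⟩
  intro δ hδ hδ'
  have hre : 3 / 2 < (z + (δ : ℂ)).re := by
    rw [Complex.add_re, Complex.ofReal_re, hz]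
    linarith
  have h1 := (abs_le.1 (hL _ hre).2).2
  have hs := Real.sqrt_pos.2 hδ
  have h2 : Real.log (c / Real.sqrt δ) ≤ Real.log ‖S.Ls (z + (δ : ℂ))‖ :=
    Real.log_le_log (by positivity) (h δ hδ hδ')
  have h3 : Real.log (c / Real.sqrt δ) = Real.log c + 1 / 2 * Real.log (1 / δ) := by
    rw [Real.log_div hc.ne' hs.ne', Real.log_sqrt hδ.le, one_div δ, Real.log_inv]
    ring
  linarith

private theorem edv_high {S : SysD} (hS : IsSys0 S) {z : ℂ} (hz : z.re = 3 / 2)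
    (h : ∃ c δ0 : ℝ, 0 < c ∧ 0 < δ0 ∧ ∀ δ : ℝ, 0 < δ → δ ≤ δ0 → c / Real.sqrt δ ≤ ‖S.Ls (z + (δ : ℂ))‖)
    (b : S.J) (c : S.G) (hbc : S.R b c) (hd : Differentiable ℂ (S.ell b c))
    (he : ∀ s : ℂ, 3 / 2 < s.re → S.ell b c s = S.Ls s * S.Lu b c s) :
    ∃ C δ0 : ℝ, 0 < δ0 ∧ ∀ δ : ℝ, 0 < δ → δ ≤ δ0 →
      ∑' v, S.lam v * ((S.u v b c).re * ((S.N v : ℂ) ^ (-(z + (δ : ℂ)))).re) ≤
        -(1 / 2 * Real.log (1 / δ)) + C := by
  obtain ⟨B, δ0, hB, hδ0, h⟩ := edv_up hz (hd z).continuousAt he h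
  obtain ⟨C, hC, hL⟩ := log_Lu hS b c hbc
  refine ⟨C + Real.log B, δ0, hδ0, ?_⟩
  intro δ hδ hδ'
  have hre : 3 / 2 < (z + (δ : ℂ)).re := by
    rw [Complex.add_re, Complex.ofReal_re, hz]
    linarith
  have h1 := (abs_le.1 (hL _ hre).2).1
  have hs := Real.sqrt_pos.2 hδ
  have h2 : Real.log ‖S.Lu b c (z + (δ : ℂ))‖ ≤ Real.log (B * Real.sqrt δ) :=
    Real.log_le_log (norm_pos_iff.2 (hL _ hre).1) (h δ hδ hδ')
  have h3 : Real.log (B * Real.sqrt δ) = Real.log B - 1 / 2 * Real.log (1 / δ) := by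
    rw [Real.log_mul hB.ne' hs.ne', Real.log_sqrt hδ.le, one_div δ, Real.log_inv]
    ring
  linarith

theorem edgeV (K : Type) [Field K] [NumberField K] (T : Finset ℕ) (hTp : ∀ p ∈ T, p.Prime)
    (hT : ∀ p : ℕ, p.Prime → p < 101 → p ∈ T) (D : LocData T) (a : ℕ → ℝ)
    (ha : ∀ q : ℕ, |a q| ≤ 2 * Real.sqrt q) (ha2 : SqRel K T a)
    (V : Finset (HeightOneSpectrum (𝓞 K))) (hV : ∀ v ∈ V, Away K T v) (hne : V.Nonempty)
    (H : HWV D a V) (z : ℂ) (hz : z.re = 3 / 2) {c δ0 : ℝ} (hc : 0 < c) (hδ0 : 0 < δ0)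
    (h : ∀ δ : ℝ, 0 < δ → δ ≤ δ0 → c ≤ δ * ‖LT K a T (z + δ)‖ ^ 2) : False := by
  classical
  have h2T : 2 ∈ T := hT 2 Nat.prime_two (by norm_num)
  obtain ⟨T1, S', hTT, hT1p, hO, hG, hVS⟩ := exists_goodV K T hTp h2T V hV
  have hS : Nic T1 (V ∪ S') := ⟨hT1p, hTT h2T, S', hO, hG, Finset.subset_union_right⟩
  have hST : ∀ v, ¬ Away K T v → v ∈ V ∪ S' := fun v hv =>
    Finset.mem_union_right _ ((hO v).2 fun h => hv fun q hq => h q (hTT hq))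
  have hVm0 : V ⊆ V ∪ S' := Finset.subset_union_left
  generalize hSS : V ∪ S' = S at hS hST hVm0
  have hVm : V ⊆ S := hVm0
  have hsys : IsSys0 (sys S D a) := isSys0 D hS hST hT ha ha2
  have hgd : IsKn (sys S D a) (KV S V) :=
    isKn D hS hST hT ha ha2 hVm hne H (fun x => GGX_inv D S hT ha x)
  obtain ⟨E, hEc, hE0, hE⟩ := edv_fac K T hT a ha (sys S D a).Ls
    (S.filter fun v => Away K T v) (fun v hv => (Finset.mem_filter.1 hv).2)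
    (fun s hs => by
      rw [LT_split S hST hT ha hs]
      rfl) hz
  have hLT : ∃ c δ0 : ℝ, 0 < c ∧ 0 < δ0 ∧ ∀ δ : ℝ, 0 < δ → δ ≤ δ0 →
      c / Real.sqrt δ ≤ ‖LT K a T (z + (δ : ℂ))‖ := by
    refine ⟨Real.sqrt c, δ0, Real.sqrt_pos.2 hc, hδ0, fun δ h1 h2 => ?_⟩
    rw [← Real.sqrt_div hc.le, ← Real.sqrt_sq (norm_nonneg (LT K a T (z + (δ : ℂ))))]
    refine Real.sqrt_le_sqrt ?_
    rw [div_le_iff₀ h1, mul_comm]
    exact h δ h1 h2
  have hpole := edv_mul hz hEc hE0 hE hLT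
  obtain ⟨x, hx1, hx2, hx3', hx3⟩ := exists_many V 16
  have hfin : ∀ i, (Function.support fun v : Io S => (ordK v.1 (x i)).toNat).Finite := by
    intro i
    have h1 : (Subtype.val ⁻¹' {v : HeightOneSpectrum (𝓞 K) | ordK v (x i) ≠ 0} :
        Set (Io S)).Finite :=
      (Pool.Agent.QD.ordK_finite (x i)).preimage (Subtype.val_injective.injOn)
    refine h1.subset fun v hv => ?_
    have h2 : (ordK v.1 (x i)).toNat ≠ 0 := hv
    intro h3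
    apply h2
    have h4 : ordK v.1 (x i) = 0 := h3
    rw [h4]
    rfl
  let b : Fin 16 → (Io S →₀ ℕ) := fun i => Finsupp.ofSupportFinite _ (hfin i)
  have hb : ∀ i, ∀ v : Io S, ordK v.1 (x i) = (b i v : ℤ) := by
    intro i v
    have h1 : b i v = (ordK v.1 (x i)).toNat := rfl
    rw [h1, Int.toNat_of_nonneg (hx3 i v.1)]
  let c : Fin 16 → GS S := fun i => QuotientGroup.mk (x i)
  have hR : ∀ i, (sys S D a).R (b i) (c i) := fun i => ⟨x i, hb i, rfl⟩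
  have hcH : ∀ i, c i ∈ KV S V := fun i => (mem_KV hVm (x i)).2 (hx1 i)
  have hu : ∀ (i : Fin 16) (v : Io S), (sys S D a).u v (b i) (c i) = (uK v.1 (x i) : ℂ) :=
    fun i v => uc_of hS (hb i) rfl v
  have h2S : ∀ v : HeightOneSpectrum (𝓞 K), (2 : 𝓞 K) ∈ v.asIdeal → v ∈ S := by
    intro v hv
    by_contra h
    exact nic_two hS v h hv
  have hxs : ∀ i, ¬ IsSquare (x i) := hx3'
  obtain ⟨C0, hC0⟩ := psum_le S
  have hq1 : ∀ i, ∃ C : ℝ, ∀ δ : ℝ, 0 < δ → δ ≤ 1 →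
      |∑' v : Io S, (uK v.1 (x i) : ℝ) * (nrm v.1 : ℝ) ^ (-(1 + δ))| ≤ C :=
    fun i => csum_bd S h2S (x i) (hxs i)
  choose C1 hC1 using hq1
  have hq2 : ∀ i j, ∃ C : ℝ, i ≠ j → ∀ δ : ℝ, 0 < δ → δ ≤ 1 →
      |∑' v : Io S, ((uK v.1 (x i) : ℝ) * (uK v.1 (x j) : ℝ)) * (nrm v.1 : ℝ) ^ (-(1 + δ))| ≤
        C := by
    intro i j
    by_cases hij : i = j
    · exact ⟨0, fun h => absurd hij h⟩
    · obtain ⟨C, hC⟩ := cmul_bd S h2S (x i) (x j) (hx2 i j hij)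
      exact ⟨C, fun _ => hC⟩
  choose C2 hC2 using hq2
  obtain ⟨C3, δ3, hδ3, hC3⟩ := edv_low hsys hz hpole
  have hq4 : ∀ i, ∃ C δ0 : ℝ, 0 < δ0 ∧ ∀ δ : ℝ, 0 < δ → δ ≤ δ0 →
      ∑' v : Io S, a (nrm v.1) * ((uK v.1 (x i) : ℝ) * ((nrm v.1 : ℂ) ^ (-(z + (δ : ℂ)))).re) ≤
        -(1 / 2 * Real.log (1 / δ)) + C := by
    intro i
    obtain ⟨C, δ0, hδ0, h⟩ := edv_high hsys hz hpole (b i) (c i) (hR i)
      (hgd.ell_diff _ _ (hR i) (hcH i)) (hgd.ell_eq _ _ (hR i) (hcH i))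
    refine ⟨C, δ0, hδ0, fun δ h1 h2 => ?_⟩
    have h3 := h δ h1 h2
    have h5 : ∑' v : Io S, a (nrm v.1) * ((uK v.1 (x i) : ℝ) *
        ((nrm v.1 : ℂ) ^ (-(z + (δ : ℂ)))).re) = ∑' v, (sys S D a).lam v *
        (((sys S D a).u v (b i) (c i)).re * (((sys S D a).N v : ℂ) ^ (-(z + (δ : ℂ)))).re) := by
      refine tsum_congr fun v => ?_
      have h6 := congrArg Complex.re (hu i v)
      rw [Complex.intCast_re] at h6
      rw [h6]
      rfl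
    rw [h5]
    exact h3
  choose C4 δ4 hδ4 hC4 using hq4
  obtain ⟨i0, hi0⟩ := Finite.exists_min δ4
  have p1 : 0 ≤ ∑ i, |C1 i| := Finset.sum_nonneg fun i _ => abs_nonneg _
  have p2 : ∀ i, 0 ≤ ∑ j, |C2 i j| := fun i => Finset.sum_nonneg fun j _ => abs_nonneg _
  have p3 : 0 ≤ ∑ i, ∑ j, |C2 i j| := Finset.sum_nonneg fun i _ => p2 i
  have p4 : 0 ≤ ∑ i, |C4 i| := Finset.sum_nonneg fun i _ => abs_nonneg _
  have q1 : ∀ i, |C1 i| ≤ ∑ i, |C1 i| := fun i =>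
    Finset.single_le_sum (f := fun i => |C1 i|) (fun i _ => abs_nonneg _) (Finset.mem_univ i)
  have q2 : ∀ i j, |C2 i j| ≤ ∑ i, ∑ j, |C2 i j| := fun i j =>
    (Finset.single_le_sum (f := fun j => |C2 i j|) (fun i _ => abs_nonneg _)
      (Finset.mem_univ j)).trans
    (Finset.single_le_sum (f := fun i => ∑ j, |C2 i j|) (fun i _ => p2 i) (Finset.mem_univ i))
  have q4 : ∀ i, |C4 i| ≤ ∑ i, |C4 i| := fun i =>
    Finset.single_le_sum (f := fun i => |C4 i|) (fun i _ => abs_nonneg _) (Finset.mem_univ i)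
  obtain ⟨Ct, hCt⟩ : ∃ Ct : ℝ, Ct = |C0| + ∑ i, |C1 i| + ∑ i, ∑ j, |C2 i j| + |C3| +
      ∑ i, |C4 i| := ⟨_, rfl⟩
  have r0 := abs_nonneg C0
  have r3 := abs_nonneg C3
  have t0 : C0 ≤ Ct := by
    have := le_abs_self C0
    linarith
  have t1 : ∀ i, C1 i ≤ Ct := fun i => by
    have := le_abs_self (C1 i)
    have := q1 i
    linarith
  have t2 : ∀ i j, C2 i j ≤ Ct := fun i j => by
    have := le_abs_self (C2 i j)
    have := q2 i j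
    linarith
  have t3 : C3 ≤ Ct := by
    have := le_abs_self C3
    linarith
  have t4 : ∀ i, C4 i ≤ Ct := fun i => by
    have := le_abs_self (C4 i)
    have := q4 i
    linarith
  have hn0 : ∀ v : Io S, 0 < nrm v.1 := fun v => Nat.pos_of_ne_zero (nrm_ne_zero v.1)
  have hnr : ∀ v : Io S, (0 : ℝ) < nrm v.1 := fun v => by exact_mod_cast hn0 v
  refine bessel (ι := Io S) (n := 16) (B := 2) (κ := 1 / 2) (fun v => (nrm v.1 : ℝ))
    (by norm_num) (by norm_num) (by norm_num) (fun v => by exact_mod_cast hn0 v)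
    (fun y hy => (summable_nrm K hy).comp_injective Subtype.val_injective)
    (fun i v => (uK v.1 (x i) : ℝ)) ?_
    (fun δ v => a (nrm v.1) * ((nrm v.1 : ℂ) ^ (-(z + (δ : ℂ)))).re) ?_ (C := Ct)
    (δ0 := min 1 (min δ3 (δ4 i0))) (lt_min one_pos (lt_min hδ3 (hδ4 i0))) ?_ ?_ ?_ ?_ ?_
  · intro i v
    rcases Pool.Agent.QD.uK_cases v.1 (x i) with h | h | h
    · rw [h]
      norm_num
    · rw [h]
      norm_num
    · rw [h]
      norm_num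
  · intro δ v
    have h1 : |((nrm v.1 : ℂ) ^ (-(z + (δ : ℂ)))).re| ≤ (nrm v.1 : ℝ) ^ (-(3 / 2 + δ)) := by
      refine (Complex.abs_re_le_norm _).trans ?_
      rw [Complex.norm_natCast_cpow_of_pos (hn0 v), Complex.neg_re, Complex.add_re,
        Complex.ofReal_re, hz]
    rw [abs_mul]
    have h2 : 2 * (nrm v.1 : ℝ) ^ (-(1 + δ)) =
        2 * Real.sqrt (nrm v.1) * (nrm v.1 : ℝ) ^ (-(3 / 2 + δ)) := by
      rw [Real.sqrt_eq_rpow, mul_assoc, ← Real.rpow_add (hnr v)]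
      congr 2
      ring
    rw [h2]
    exact mul_le_mul (ha _) h1 (abs_nonneg _) (by positivity)
  · intro δ h1 h2
    have := hC0 δ h1 (h2.trans (min_le_left _ _))
    linarith
  · intro i δ h1 h2
    exact (hC1 i δ h1 (h2.trans (min_le_left _ _))).trans (t1 i)
  · intro i j δ hij h1 h2
    exact (hC2 i j hij δ h1 (h2.trans (min_le_left _ _))).trans (t2 i j)
  · intro δ h1 h2
    have h3 : 1 / 2 * Real.log (1 / δ) - C3 ≤
        ∑' v : Io S, a (nrm v.1) * ((nrm v.1 : ℂ) ^ (-(z + (δ : ℂ)))).re :=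
      hC3 δ h1 (h2.trans ((min_le_right _ _).trans (min_le_left _ _)))
    linarith
  · intro i δ h1 h2
    have h3 := hC4 i δ h1
      ((h2.trans ((min_le_right _ _).trans (min_le_right _ _))).trans (hi0 i))
    have h4 := t4 i
    have h5 : ∑' v : Io S, (uK v.1 (x i) : ℝ) *
        (a (nrm v.1) * ((nrm v.1 : ℂ) ^ (-(z + (δ : ℂ)))).re) =
        ∑' v : Io S, a (nrm v.1) *
          ((uK v.1 (x i) : ℝ) * ((nrm v.1 : ℂ) ^ (-(z + (δ : ℂ)))).re) :=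
      tsum_congr fun v => by ring
    rw [h5]
    linarith

end Pool.Agent.MD
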