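import Pool.Agent.MD.I.Defs
import Pool.Agent.LD.I.Ord

/-!
# MD/E-OrdF: comparison of orders

PLAN (adapt `ord_half`, LD/I/Ord.lean).  For `Re z > 3/2` use `hgne` (order `0`).  Let `1/2 < Re z ≤ 3/2`.  On `1/2 < Re t < R + 1` put
`U t = (A^(t/2) gam1 t ^ d)^2 * (∏_{v ∈ E} efac a (nrm v) t)^2 * ((D.pl K t)⁻¹)^2`, holomorphic (as there).  For `R < Re t < R + 1`: `P t * f t = g t * U t * F t` (`hfg`, definition of `D.Lam`, `hLs`, `hF2`), hence on
`1/2 < Re t < R + 1` by the identity theorem.  Orders at `z`: `ord P + ord f = ord g + ord U + ord F ≥ ord g + ord P`, and `ord P` is finite (`P` is entire, not identically zero: `hP0`), so `ord g ≤ ord f`.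
-/

namespace Pool.Agent.MD

open NumberField IsDedekindDomain Pool.Agent.HWR Pool.Agent.QD Pool.Agent.QD.In Pool.Agent.LD

open scoped TensorProduct

private theorem o_cd_pos (K : Type) [Field K] [NumberField K] {T : Finset ℕ} (D : LocData T) :
    0 < D.cd K := by
  classical
  unfold LocData.cd
  refine Finset.prod_pos fun p hp => ?_
  split_ifs with h
  · haveI := Fact.mk h
    exact D.cond_pos p (ℚ_[p] ⊗[ℚ] K)
  · exact one_pos

private theorem o_A_pos (K : Type) [Field K] [NumberField K] {T : Finset ℕ} (D : LocData T) :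
    0 < D.A K := by
  unfold LocData.A
  have h1 : (NumberField.discr K : ℝ) ≠ 0 := by exact_mod_cast NumberField.discr_ne_zero K
  have h2 := o_cd_pos K D
  positivity

private theorem o_pl_ne (K : Type) [Field K] [NumberField K] {T : Finset ℕ} (D : LocData T)
    {t : ℂ} (ht : 1 / 2 < t.re) : D.pl K t ≠ 0 := by
  classical
  unfold LocData.pl
  refine Finset.prod_ne_zero_iff.2 fun p hp => ?_
  split_ifs with h
  · haveI := Fact.mk h
    intro h0
    have h1 := D.pol_root p (ℚ_[p] ⊗[ℚ] K) _ h0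
    have hp0 : 0 < p := h.pos
    rw [Complex.norm_natCast_cpow_of_pos hp0, Complex.neg_re] at h1
    have hp1 : (1 : ℝ) < p := by exact_mod_cast h.one_lt
    rw [Real.rpow_le_rpow_left_iff hp1] at h1
    linarith
  · exact one_ne_zero

private theorem o_pl_diff (K : Type) [Field K] [NumberField K] {T : Finset ℕ} (D : LocData T) :
    Differentiable ℂ (D.pl K) := by
  classical
  unfold LocData.pl
  refine Differentiable.fun_finset_prod fun p hp => ?_
  split_ifs with h
  · haveI := Fact.mk h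
    have hp0 : (p : ℂ) ≠ 0 := by exact_mod_cast h.ne_zero
    have h2 : Differentiable ℂ (fun s : ℂ => (p : ℂ) ^ (-s)) := by
      intro s
      exact (differentiableAt_id.neg).const_cpow (Or.inl hp0)
    exact Differentiable.fun_comp (Polynomial.differentiable _) h2
  · exact differentiable_const _

private theorem o_unit {c : ℝ} (hc : |c| ≤ 2) {x : ℂ} (hx : ‖x‖ < 1) :
    1 - (c : ℂ) * x + x ^ 2 ≠ 0 := by
  intro h
  have hre : 1 - c * x.re + (x.re * x.re - x.im * x.im) = 0 := by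
    have := congrArg Complex.re h
    simpa [sq] using this
  have him : -(c * x.im) + (x.re * x.im + x.im * x.re) = 0 := by
    have := congrArg Complex.im h
    simpa [sq] using this
  have hn : x.re * x.re + x.im * x.im < 1 := by
    have h1 : ‖x‖ ^ 2 < 1 := by
      have h2 := norm_nonneg x
      nlinarith
    rw [← Complex.normSq_eq_norm_sq, Complex.normSq_apply] at h1
    exact h1
  have h3 : x.im * (2 * x.re - c) = 0 := by linear_combination him
  rcases mul_eq_zero.1 h3 with h4 | h4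
  · rw [h4] at hre hn
    have h5 : c * x.re ≤ 2 * |x.re| := by
      calc c * x.re ≤ |c * x.re| := le_abs_self _
        _ = |c| * |x.re| := abs_mul _ _
        _ ≤ 2 * |x.re| := mul_le_mul_of_nonneg_right hc (abs_nonneg _)
    have h6 : |x.re| * |x.re| = x.re * x.re := abs_mul_abs_self _
    have h7 : (1 - |x.re|) ^ 2 ≤ 0 := by nlinarith
    have h8 : 1 - |x.re| = 0 := by nlinarith [sq_nonneg (1 - |x.re|)]
    have h9 : |x.re| = 1 := by linarith
    rw [h9] at h6
    linarith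
  · have h5 : c = 2 * x.re := by linarith
    rw [h5] at hre
    nlinarith

private theorem o_quad_ne {a : ℕ → ℝ} (ha : ∀ q : ℕ, |a q| ≤ 2 * Real.sqrt q) {q : ℕ}
    (hq : 101 ≤ q) {t : ℂ} (ht : 1 / 2 < t.re) :
    1 - (a q : ℂ) * (q : ℂ) ^ (-t) + (q : ℂ) ^ (1 - 2 * t) ≠ 0 := by
  have hq0 : 0 < q := by omega
  have hQ : (q : ℂ) ≠ 0 := by exact_mod_cast hq0.ne'
  have hqR : (1 : ℝ) < q := by exact_mod_cast (by omega : 1 < q)
  have hqp : (0 : ℝ) < q := by linarith
  have hs : 0 < Real.sqrt q := Real.sqrt_pos.2 hqp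
  have hsC : ((Real.sqrt q : ℝ) : ℂ) ≠ 0 := by exact_mod_cast hs.ne'
  have hsq : ((Real.sqrt q : ℝ) : ℂ) ^ 2 = q := by
    have h := Real.sq_sqrt hqp.le
    exact_mod_cast congrArg (fun r : ℝ => (r : ℂ)) h
  have hc : |a q / Real.sqrt q| ≤ 2 := by
    rw [abs_div, abs_of_pos hs, div_le_iff₀ hs]
    exact ha q
  have hx : ‖((Real.sqrt q : ℝ) : ℂ) * (q : ℂ) ^ (-t)‖ < 1 := by
    rw [norm_mul, Complex.norm_natCast_cpow_of_pos hq0, Complex.norm_real, Real.norm_eq_abs,
      abs_of_pos hs, Complex.neg_re, Real.sqrt_eq_rpow, ← Real.rpow_add hqp]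
    refine Real.rpow_lt_one_of_one_lt_of_neg hqR ?_
    linarith
  have key := o_unit hc hx
  have e1 : ((a q / Real.sqrt q : ℝ) : ℂ) * (((Real.sqrt q : ℝ) : ℂ) * (q : ℂ) ^ (-t)) =
      (a q : ℂ) * (q : ℂ) ^ (-t) := by
    push_cast
    field_simp
  have e2 : (((Real.sqrt q : ℝ) : ℂ) * (q : ℂ) ^ (-t)) ^ 2 = (q : ℂ) ^ (1 - 2 * t) := by
    rw [mul_pow, hsq]
    have h1 : (1 : ℂ) - 2 * t = 1 + (-t + -t) := by ring
    rw [h1, Complex.cpow_add _ _ hQ, Complex.cpow_add _ _ hQ, Complex.cpow_one]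
    ring
  rw [e1, e2] at key
  exact key

private theorem o_quad_diff (a : ℕ → ℝ) {q : ℕ} (hq : q ≠ 0) :
    Differentiable ℂ fun t : ℂ => 1 - (a q : ℂ) * (q : ℂ) ^ (-t) + (q : ℂ) ^ (1 - 2 * t) := by
  have hq0 : (q : ℂ) ≠ 0 := by exact_mod_cast hq
  intro t
  refine ((differentiableAt_const _).sub ((differentiableAt_const _).mul ?_)).add ?_
  · exact (differentiableAt_id.neg).const_cpow (Or.inl hq0)
  · exact ((differentiableAt_const _).sub ((differentiableAt_const _).mul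
      differentiableAt_id)).const_cpow (Or.inl hq0)

private theorem o_gam_ne {t : ℂ} (ht : 0 < t.re) : gam1 t ≠ 0 := by
  unfold gam1
  refine mul_ne_zero ?_ (Complex.Gamma_ne_zero_of_re_pos ht)
  have h : (2 * (Real.pi : ℂ)) ≠ 0 := by
    have := Real.pi_ne_zero
    exact mul_ne_zero two_ne_zero (by exact_mod_cast this)
  rw [Complex.cpow_def_of_ne_zero h]
  exact Complex.exp_ne_zero _

private theorem o_gam_diff {t : ℂ} (ht : 0 < t.re) : DifferentiableAt ℂ gam1 t := by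
  unfold gam1
  have h : (2 * (Real.pi : ℂ)) ≠ 0 := by
    have := Real.pi_ne_zero
    exact mul_ne_zero two_ne_zero (by exact_mod_cast this)
  refine ((differentiableAt_id.neg).const_cpow (Or.inl h)).mul ?_
  refine Complex.differentiableAt_Gamma t fun m hm => ?_
  rw [hm] at ht
  simp at ht
  have : (0 : ℝ) ≤ (m : ℝ) := Nat.cast_nonneg m
  linarith

theorem ord_sq (K : Type) [Field K] [NumberField K] (T : Finset ℕ) (hTp : ∀ p ∈ T, p.Prime)
    (hT : ∀ p : ℕ, p.Prime → p < 101 → p ∈ T) (D : LocData T) (a : ℕ → ℝ)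
    (ha : ∀ q : ℕ, |a q| ≤ 2 * Real.sqrt q) {f g : ℂ → ℂ} (hf : Differentiable ℂ f)
    (hg : Differentiable ℂ g) (hgne : ∀ s : ℂ, 3 / 2 < s.re → g s ≠ 0)
    (hfg : ∀ s : ℂ, 3 / 2 < s.re → g s * D.Lam a K s ^ 2 = f s) (S : SysD)
    (E : Finset (HeightOneSpectrum (𝓞 K))) (hE : ∀ v ∈ E, Away K T v)
    (hLs : ∀ s : ℂ, 3 / 2 < s.re → LT K a T s = S.Ls s * ∏ v ∈ E, efac a (nrm v) s)
    {P : ℂ → ℂ} (hP : Differentiable ℂ P) (hP0 : ∃ z, P z ≠ 0) {R : ℝ} (hR : 6 ≤ R) {F : ℂ → ℂ}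
    (hF : DifferentiableOn ℂ F {t : ℂ | 0 < t.re ∧ t.re < R + 1})
    (hF2 : ∀ t : ℂ, R < t.re → t.re < R + 1 → F t = P t * S.Ls t ^ 2)
    (hord : ∀ z : ℂ, 0 < z.re → z.re < R + 1 → analyticOrderAt P z ≤ analyticOrderAt F z) :
    ∀ z : ℂ, 1 / 2 < z.re → analyticOrderAt g z ≤ analyticOrderAt f z := by
  intro z hz
  have hgA : AnalyticAt ℂ g z := hg.analyticAt z
  have hfA : AnalyticAt ℂ f z := hf.analyticAt z
  by_cases hz2 : 3 / 2 < z.re
  · rw [hgA.analyticOrderAt_eq_zero.2 (hgne z hz2)]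
    exact zero_le
  have hAc : ((D.A K : ℝ) : ℂ) ≠ 0 := by exact_mod_cast (o_A_pos K D).ne'
  have hqE : ∀ v ∈ E, 101 ≤ nrm v := fun v hv => nrm_away K T hT v (hE v hv)
  obtain ⟨W, hW⟩ : ∃ W : ℂ → ℂ, W = fun t =>
      ((D.A K : ℝ) : ℂ) ^ (t / 2) * gam1 t ^ Module.finrank ℚ K := ⟨_, rfl⟩
  obtain ⟨Qd, hQd⟩ : ∃ Qd : ℂ → ℂ, Qd = fun t =>
      ∏ v ∈ E, (1 - (a (nrm v) : ℂ) * (nrm v : ℂ) ^ (-t) + (nrm v : ℂ) ^ (1 - 2 * t)) := ⟨_, rfl⟩
  have hWne : ∀ t : ℂ, 0 < t.re → W t ≠ 0 := by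
    intro t ht
    rw [hW]
    refine mul_ne_zero ?_ (pow_ne_zero _ (o_gam_ne ht))
    rw [Complex.cpow_def_of_ne_zero hAc]
    exact Complex.exp_ne_zero _
  have hWd : DifferentiableOn ℂ W {t : ℂ | 0 < t.re} := by
    intro t ht
    rw [hW]
    exact (((differentiableAt_id.div_const 2).const_cpow (Or.inl hAc)).mul
      ((o_gam_diff ht).pow _)).differentiableWithinAt
  have hQne : ∀ t : ℂ, 1 / 2 < t.re → Qd t ≠ 0 := by
    intro t ht
    rw [hQd]
    exact Finset.prod_ne_zero_iff.2 fun v hv => o_quad_ne ha (hqE v hv) ht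
  have hQdd : Differentiable ℂ Qd := by
    intro t
    rw [hQd]
    refine DifferentiableAt.fun_finset_prod fun v hv => ?_
    have := hqE v hv
    exact o_quad_diff a (q := nrm v) (by omega) t
  have hPd : Differentiable ℂ (D.pl K) := o_pl_diff K D
  -- the strip
  have hO1 : IsOpen {t : ℂ | 1 / 2 < t.re ∧ t.re < R + 1} :=
    (isOpen_lt continuous_const Complex.continuous_re).inter
      (isOpen_lt Complex.continuous_re continuous_const)
  have hO0 : IsOpen {t : ℂ | 0 < t.re ∧ t.re < R + 1} :=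
    (isOpen_lt continuous_const Complex.continuous_re).inter
      (isOpen_lt Complex.continuous_re continuous_const)
  have hOp : IsOpen {t : ℂ | 0 < t.re} := isOpen_lt continuous_const Complex.continuous_re
  have hconv : Convex ℝ {t : ℂ | 1 / 2 < t.re ∧ t.re < R + 1} :=
    (convex_halfSpace_re_gt (1 / 2)).inter (convex_halfSpace_re_lt (R + 1))
  have hFA : ∀ t : ℂ, 1 / 2 < t.re → t.re < R + 1 → AnalyticAt ℂ F t := fun t h1 h2 =>
    hF.analyticAt (hO0.mem_nhds ⟨by linarith, h2⟩)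
  have hWA : ∀ t : ℂ, 1 / 2 < t.re → AnalyticAt ℂ W t := fun t h1 =>
    hWd.analyticAt (hOp.mem_nhds (by
      change 0 < t.re
      linarith))
  have hL1 : ∀ t : ℂ, 1 / 2 < t.re → t.re < R + 1 →
      AnalyticAt ℂ (P * f * (D.pl K) ^ 2 * Qd ^ 2) t := fun t h1 h2 =>
    (((hP.analyticAt t).mul (hf.analyticAt t)).mul ((hPd.analyticAt t).pow 2)).mul
      ((hQdd.analyticAt t).pow 2)
  have hR1 : ∀ t : ℂ, 1 / 2 < t.re → t.re < R + 1 →
      AnalyticAt ℂ (g * W ^ 2 * F) t := fun t h1 h2 =>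
    ((hg.analyticAt t).mul ((hWA t h1).pow 2)).mul (hFA t h1 h2)
  have hid : ∀ t : ℂ, R < t.re → t.re < R + 1 →
      (P * f * (D.pl K) ^ 2 * Qd ^ 2) t = (g * W ^ 2 * F) t := by
    intro t h1 h2
    have ht : 3 / 2 < t.re := by linarith
    have h3 := hfg t ht
    have h4 := hLs t ht
    have h5 := hF2 t h1 h2
    have h6 := o_pl_ne K D (t := t) (by linarith)
    have h7 := hQne t (by linarith)
    have h8 : (∏ v ∈ E, efac a (nrm v) t) * Qd t = 1 := by
      rw [hQd]
      simp only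
      rw [← Finset.prod_mul_distrib]
      refine Finset.prod_eq_one fun v hv => ?_
      unfold efac
      exact inv_mul_cancel₀ (o_quad_ne ha (hqE v hv) (by linarith))
    have h9 : LT K a T t * Qd t = S.Ls t := by
      rw [h4, mul_assoc, h8, mul_one]
    have h10 : D.Lam a K t * D.pl K t = W t * LT K a T t := by
      rw [hW]
      unfold LocData.Lam
      field_simp
    have h11 : D.Lam a K t * D.pl K t * Qd t = W t * S.Ls t := by
      rw [← h9]
      linear_combination (Qd t) * h10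
    change P t * f t * (D.pl K t) ^ 2 * Qd t ^ 2 = g t * W t ^ 2 * F t
    rw [h5, ← h3]
    linear_combination (P t * g t * (D.Lam a K t * D.pl K t * Qd t + W t * S.Ls t)) * h11
  have hpt : ((R + 1 / 2 : ℝ) : ℂ) ∈ {t : ℂ | 1 / 2 < t.re ∧ t.re < R + 1} := by
    constructor
    · rw [Complex.ofReal_re]
      linarith
    · rw [Complex.ofReal_re]
      linarith
  have hev : (P * f * (D.pl K) ^ 2 * Qd ^ 2) =ᶠ[nhds ((R + 1 / 2 : ℝ) : ℂ)]
      (g * W ^ 2 * F) := by
    have hO2 : IsOpen {t : ℂ | R < t.re ∧ t.re < R + 1} :=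
      (isOpen_lt continuous_const Complex.continuous_re).inter
        (isOpen_lt Complex.continuous_re continuous_const)
    refine Filter.mem_of_superset (hO2.mem_nhds ?_) fun t ht => hid t ht.1 ht.2
    constructor
    · rw [Complex.ofReal_re]
      linarith
    · rw [Complex.ofReal_re]
      linarith
  have hEq : Set.EqOn (P * f * (D.pl K) ^ 2 * Qd ^ 2) (g * W ^ 2 * F)
      {t : ℂ | 1 / 2 < t.re ∧ t.re < R + 1} :=
    AnalyticOnNhd.eqOn_of_preconnected_of_eventuallyEq (fun t ht => hL1 t ht.1 ht.2)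
      (fun t ht => hR1 t ht.1 ht.2) hconv.isPreconnected hpt hev
  have hzR : z.re < R + 1 := by
    push Not at hz2
    linarith
  have hcg : (P * f * (D.pl K) ^ 2 * Qd ^ 2) =ᶠ[nhds z] (g * W ^ 2 * F) :=
    Filter.mem_of_superset (hO1.mem_nhds ⟨hz, hzR⟩) fun t ht => hEq ht
  have hord2 := analyticOrderAt_congr hcg
  have hPPA := hP.analyticAt z
  have hPA := hPd.analyticAt z
  have hQA := hQdd.analyticAt z
  have hWz := hWA z hz
  rw [analyticOrderAt_mul ((hPPA.mul hfA).mul (hPA.pow 2)) (hQA.pow 2),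
    analyticOrderAt_mul (hPPA.mul hfA) (hPA.pow 2),
    analyticOrderAt_mul hPPA hfA,
    analyticOrderAt_mul (hgA.mul (hWz.pow 2)) (hFA z hz hzR),
    analyticOrderAt_mul hgA (hWz.pow 2),
    analyticOrderAt_pow hPA, analyticOrderAt_pow hQA,
    analyticOrderAt_pow hWz,
    hPA.analyticOrderAt_eq_zero.2 (o_pl_ne K D hz),
    hQA.analyticOrderAt_eq_zero.2 (hQne z hz),
    hWz.analyticOrderAt_eq_zero.2 (hWne z (by linarith))] at hord2
  simp only [nsmul_zero, add_zero] at hord2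
  have hfin : analyticOrderAt P z ≠ ⊤ := by
    intro htop
    rw [analyticOrderAt_eq_top] at htop
    obtain ⟨w, hw⟩ := hP0
    refine hw ?_
    have h1 : AnalyticOnNhd ℂ P Set.univ := fun t _ => hP.analyticAt t
    have h2 : AnalyticOnNhd ℂ (fun _ : ℂ => (0 : ℂ)) Set.univ := fun t _ => analyticAt_const
    have h3 := h1.eq_of_eventuallyEq (g := fun _ : ℂ => (0 : ℂ)) h2 htop
    rw [h3]
  have hle := hord z (by linarith) hzR
  have h12 : analyticOrderAt P z + analyticOrderAt g z ≤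
      analyticOrderAt P z + analyticOrderAt f z := by
    rw [hord2, add_comm]
    exact add_le_add le_rfl hle
  exact (ENat.add_le_add_iff_left hfin).1 h12

end Pool.Agent.MD
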