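import Pool.Agent.MD.I.Defs
import Pool.Agent.LD.I.Ord

/-!
# MD/E-OrdP: the zeros of `∏ Lam` are zeros of `F`

PLAN.  `P t = ∏ i, Lam (q i) (lam i) t` is entire and not identically zero.  `Lam_ne`: if `Re z ≠ 3/2` then `Lam q lam z ≠ 0`: `q^(z-1) + q^(2-z) = √q (X + X⁻¹)`, `X = q^(z - 3/2)`; if `X + X⁻¹ = lam/√q =: y`, real
with `|y| ≤ 2`, then `X` is a root of `X² - y X + 1 = 0` so `|X| = 1` (discriminant `≤ 0`: the roots are complex conjugate with product `1`, or double real `± 1`), but `|X| = q^(Re z - 3/2) ≠ 1`.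
`ord_P`: for `Re z ≠ 3/2`: `P z ≠ 0`, so `analyticOrderAt P z = 0`.  For `Re z = 3/2`: suppose `ord F < ord P` (`ord P` finite).  `F = P * Ls²` on `3/2 < Re t < R + 1` (identity theorem on this strip, or on
`{0 < Re t < R + 1} ∩ {3/2 < Re}`: both sides are holomorphic there; `Ls_diff`, LD/A/Euler, convex set; they agree for `R < Re t < R + 1`).  Near `z`: `F = (t - z)^m F1`, `P = (t - z)^l P1`, `F1 z ≠ 0`,
`P1 z ≠ 0`, `m < l` so `‖Ls (z + δ)‖² = ‖F / P‖ ≥ c δ^(m - l) ≥ c / δ` for small `δ > 0`; `LT = Ls * ∏ efac` (`hLs`), and the finite product is continuous and nonzero at `z` (`efac a (nrm v) s ≠ 0`: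
it is an inverse of `1 - a q q^(-s) + q^(1-2s)` which is not zero for `Re s = 3/2`, `q ≥ 101`): `‖LT (z + δ)‖² ≥ c' / δ`: contradiction to `hedge`.
-/

namespace Pool.Agent.MD

open NumberField IsDedekindDomain Pool.Agent.HWR Pool.Agent.QD Pool.Agent.QD.In Pool.Agent.LD

private theorem op_unit {c : ℝ} (hc : |c| ≤ 2) {x : ℂ} (hx : ‖x‖ < 1) :
    1 - (c : ℂ) * x + x ^ 2 ≠ 0 := by
  intro h
  have hre : 1 - c * x.re + (x.re * x.re - x.im * x.im) = 0 := by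
    have := congrArg Complex.re h
    simpa [sq] using this
  have him : -(c * x.im) + (x.re * x.im + x.im * x.re) = 0 := by
    have := congrArg Complex.im h
    simpa [sq] using this
  have hn : x.re * x.re + x.im * x.im < 1 := by
    have h1 : ‖x‖ ^ 2 < 1 := by
      have h2 := norm_nonneg x
      nlinarith
    rw [← Complex.normSq_eq_norm_sq, Complex.normSq_apply] at h1
    exact h1
  have h3 : x.im * (2 * x.re - c) = 0 := by linear_combination him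
  rcases mul_eq_zero.1 h3 with h4 | h4
  · rw [h4] at hre hn
    have h5 : c * x.re ≤ 2 * |x.re| := by
      calc c * x.re ≤ |c * x.re| := le_abs_self _
        _ = |c| * |x.re| := abs_mul _ _
        _ ≤ 2 * |x.re| := mul_le_mul_of_nonneg_right hc (abs_nonneg _)
    have h6 : |x.re| * |x.re| = x.re * x.re := abs_mul_abs_self _
    have h7 : (1 - |x.re|) ^ 2 ≤ 0 := by nlinarith
    have h8 : 1 - |x.re| = 0 := by nlinarith [sq_nonneg (1 - |x.re|)]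
    have h9 : |x.re| = 1 := by linarith
    rw [h9] at h6
    linarith
  · have h5 : c = 2 * x.re := by linarith
    rw [h5] at hre
    nlinarith

private theorem op_quad_ne {a : ℕ → ℝ} (ha : ∀ q : ℕ, |a q| ≤ 2 * Real.sqrt q) {q : ℕ}
    (hq : 101 ≤ q) {t : ℂ} (ht : 1 / 2 < t.re) :
    1 - (a q : ℂ) * (q : ℂ) ^ (-t) + (q : ℂ) ^ (1 - 2 * t) ≠ 0 := by
  have hq0 : 0 < q := by omega
  have hQ : (q : ℂ) ≠ 0 := by exact_mod_cast hq0.ne'
  have hqR : (1 : ℝ) < q := by exact_mod_cast (by omega : 1 < q)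
  have hqp : (0 : ℝ) < q := by linarith
  have hs : 0 < Real.sqrt q := Real.sqrt_pos.2 hqp
  have hsC : ((Real.sqrt q : ℝ) : ℂ) ≠ 0 := by exact_mod_cast hs.ne'
  have hsq : ((Real.sqrt q : ℝ) : ℂ) ^ 2 = q := by
    have h := Real.sq_sqrt hqp.le
    exact_mod_cast congrArg (fun r : ℝ => (r : ℂ)) h
  have hc : |a q / Real.sqrt q| ≤ 2 := by
    rw [abs_div, abs_of_pos hs, div_le_iff₀ hs]
    exact ha q
  have hx : ‖((Real.sqrt q : ℝ) : ℂ) * (q : ℂ) ^ (-t)‖ < 1 := by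
    rw [norm_mul, Complex.norm_natCast_cpow_of_pos hq0, Complex.norm_real, Real.norm_eq_abs,
      abs_of_pos hs, Complex.neg_re, Real.sqrt_eq_rpow, ← Real.rpow_add hqp]
    refine Real.rpow_lt_one_of_one_lt_of_neg hqR ?_
    linarith
  have key := op_unit hc hx
  have e1 : ((a q / Real.sqrt q : ℝ) : ℂ) * (((Real.sqrt q : ℝ) : ℂ) * (q : ℂ) ^ (-t)) =
      (a q : ℂ) * (q : ℂ) ^ (-t) := by
    push_cast
    field_simp
  have e2 : (((Real.sqrt q : ℝ) : ℂ) * (q : ℂ) ^ (-t)) ^ 2 = (q : ℂ) ^ (1 - 2 * t) := by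
    rw [mul_pow, hsq]
    have h1 : (1 : ℂ) - 2 * t = 1 + (-t + -t) := by ring
    rw [h1, Complex.cpow_add _ _ hQ, Complex.cpow_add _ _ hQ, Complex.cpow_one]
    ring
  rw [e1, e2] at key
  exact key

private theorem op_quad_diff (a : ℕ → ℝ) {q : ℕ} (hq : q ≠ 0) :
    Differentiable ℂ fun t : ℂ => 1 - (a q : ℂ) * (q : ℂ) ^ (-t) + (q : ℂ) ^ (1 - 2 * t) := by
  have hq0 : (q : ℂ) ≠ 0 := by exact_mod_cast hq
  intro t
  refine ((differentiableAt_const _).sub ((differentiableAt_const _).mul ?_)).add ?_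
  · exact (differentiableAt_id.neg).const_cpow (Or.inl hq0)
  · exact ((differentiableAt_const _).sub ((differentiableAt_const _).mul
      differentiableAt_id)).const_cpow (Or.inl hq0)

private theorem op_Lam_diff {q : ℕ} (hq : 101 ≤ q) (lam : ℝ) : Differentiable ℂ (Lam q lam) := by
  have hQ : (q : ℂ) ≠ 0 := by exact_mod_cast (by omega : q ≠ 0)
  intro t
  have h1 : DifferentiableAt ℂ (fun t : ℂ => (q : ℂ) ^ (t - 1)) t :=
    (differentiableAt_id.sub (differentiableAt_const _)).const_cpow (Or.inl hQ)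
  have h2 : DifferentiableAt ℂ (fun t : ℂ => (q : ℂ) ^ (2 - t)) t :=
    ((differentiableAt_const _).sub differentiableAt_id).const_cpow (Or.inl hQ)
  exact (h1.add h2).sub (differentiableAt_const _)

private theorem op_core {s : ℝ} (hs : 0 < s) {lam : ℝ} (hl : |lam| ≤ 2 * s) {A B : ℂ}
    (hAB : A * B = ((s : ℝ) : ℂ) ^ 2) (hA : ‖A‖ < s) : A + B - (lam : ℂ) ≠ 0 := by
  intro h
  have hsC : ((s : ℝ) : ℂ) ≠ 0 := by exact_mod_cast hs.ne'
  have hc : |lam / s| ≤ 2 := by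
    rw [abs_div, abs_of_pos hs, div_le_iff₀ hs]
    exact hl
  have hx : ‖A / ((s : ℝ) : ℂ)‖ < 1 := by
    rw [norm_div, Complex.norm_real, Real.norm_eq_abs, abs_of_pos hs, div_lt_one hs]
    exact hA
  refine op_unit hc hx ?_
  push_cast
  field_simp
  linear_combination -hAB + A * h

theorem Lam_ne {q : ℕ} (hq : 101 ≤ q) {lam : ℝ} (hl : |lam| ≤ 2 * Real.sqrt q) {z : ℂ}
    (hz : z.re ≠ 3 / 2) : Lam q lam z ≠ 0 := by
  have hq0 : 0 < q := by omega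
  have hQ : (q : ℂ) ≠ 0 := by exact_mod_cast hq0.ne'
  have hqR : (1 : ℝ) < q := by exact_mod_cast (by omega : 1 < q)
  have hqp : (0 : ℝ) < q := by linarith
  have hs : 0 < Real.sqrt q := Real.sqrt_pos.2 hqp
  have hsq : ((Real.sqrt q : ℝ) : ℂ) ^ 2 = q := by
    have h := Real.sq_sqrt hqp.le
    exact_mod_cast congrArg (fun r : ℝ => (r : ℂ)) h
  have hAB : (q : ℂ) ^ (z - 1) * (q : ℂ) ^ (2 - z) = ((Real.sqrt q : ℝ) : ℂ) ^ 2 := by
    rw [hsq, ← Complex.cpow_add _ _ hQ]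
    have : z - 1 + (2 - z) = 1 := by ring
    rw [this, Complex.cpow_one]
  rcases lt_or_gt_of_ne hz with h | h
  · have hA : ‖(q : ℂ) ^ (z - 1)‖ < Real.sqrt q := by
      rw [Complex.norm_natCast_cpow_of_pos hq0, Real.sqrt_eq_rpow]
      refine Real.rpow_lt_rpow_of_exponent_lt hqR ?_
      simp only [Complex.sub_re, Complex.one_re]
      linarith
    exact op_core hs hl hAB hA
  · have hA : ‖(q : ℂ) ^ (2 - z)‖ < Real.sqrt q := by
      rw [Complex.norm_natCast_cpow_of_pos hq0, Real.sqrt_eq_rpow]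
      refine Real.rpow_lt_rpow_of_exponent_lt hqR ?_
      simp only [Complex.sub_re, Complex.re_ofNat]
      linarith
    have hBA : (q : ℂ) ^ (2 - z) * (q : ℂ) ^ (z - 1) = ((Real.sqrt q : ℝ) : ℂ) ^ 2 := by
      rw [mul_comm]
      exact hAB
    have key := op_core hs hl hBA hA
    intro h0
    refine key ?_
    have h1 : (q : ℂ) ^ (z - 1) + (q : ℂ) ^ (2 - z) - (lam : ℂ) = 0 := h0
    linear_combination h1

theorem ord_P (K : Type) [Field K] [NumberField K] (T : Finset ℕ)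
    (hT : ∀ p : ℕ, p.Prime → p < 101 → p ∈ T) (a : ℕ → ℝ)
    (ha : ∀ q : ℕ, |a q| ≤ 2 * Real.sqrt q) {S : SysD} (hS : IsSys0 S)
    (E : Finset (HeightOneSpectrum (𝓞 K))) (hE : ∀ v ∈ E, Away K T v)
    (hLs : ∀ s : ℂ, 3 / 2 < s.re → LT K a T s = S.Ls s * ∏ v ∈ E, efac a (nrm v) s)
    {κ : Type} [Fintype κ] {q : κ → ℕ} {lam : κ → ℝ} (hq : ∀ i, 101 ≤ q i)
    (hl : ∀ i, |lam i| ≤ 2 * Real.sqrt (q i)) {R : ℝ} (hR : 6 ≤ R) {F : ℂ → ℂ}
    (hF : DifferentiableOn ℂ F {t : ℂ | 0 < t.re ∧ t.re < R + 1})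
    (hF2 : ∀ t : ℂ, R < t.re → t.re < R + 1 → F t = (∏ i, Lam (q i) (lam i) t) * S.Ls t ^ 2)
    (hedge : ∀ (z : ℂ) (c δ0 : ℝ), z.re = 3 / 2 → 0 < c → 0 < δ0 →
      (∀ δ : ℝ, 0 < δ → δ ≤ δ0 → c ≤ δ * ‖LT K a T (z + δ)‖ ^ 2) → False) :
    ∀ z : ℂ, 0 < z.re → z.re < R + 1 →
      analyticOrderAt (fun t => ∏ i, Lam (q i) (lam i) t) z ≤ analyticOrderAt F z := by
  intro z hz0 hzR
  have hPd : Differentiable ℂ (fun t => ∏ i, Lam (q i) (lam i) t) := by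
    intro t
    exact DifferentiableAt.fun_finsetProd fun i _ => op_Lam_diff (hq i) (lam i) t
  have hPne : ∀ t : ℂ, t.re ≠ 3 / 2 → (∏ i, Lam (q i) (lam i) t) ≠ 0 := fun t ht =>
    Finset.prod_ne_zero_iff.2 fun i _ => Lam_ne (hq i) (hl i) ht
  obtain ⟨P, hP⟩ : ∃ P : ℂ → ℂ, P = fun t => ∏ i, Lam (q i) (lam i) t := ⟨_, rfl⟩
  rw [← hP] at hPd ⊢
  have hPA : AnalyticAt ℂ P z := hPd.analyticAt z
  by_cases hz : z.re = 3 / 2
  swap
  · have h1 : P z ≠ 0 := by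
      rw [hP]
      exact hPne z hz
    rw [hPA.analyticOrderAt_eq_zero.2 h1]
    exact zero_le
  by_contra hcon
  push Not at hcon
  -- the strip
  have hO0 : IsOpen {t : ℂ | 0 < t.re ∧ t.re < R + 1} :=
    (isOpen_lt continuous_const Complex.continuous_re).inter
      (isOpen_lt Complex.continuous_re continuous_const)
  have hO1 : IsOpen {t : ℂ | 3 / 2 < t.re} := isOpen_lt continuous_const Complex.continuous_re
  have hconv : Convex ℝ {t : ℂ | 3 / 2 < t.re ∧ t.re < R + 1} :=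
    (convex_halfSpace_re_gt (3 / 2)).inter (convex_halfSpace_re_lt (R + 1))
  have hFA : ∀ t : ℂ, 0 < t.re → t.re < R + 1 → AnalyticAt ℂ F t := fun t h1 h2 =>
    hF.analyticAt (hO0.mem_nhds ⟨h1, h2⟩)
  have hSA : ∀ t : ℂ, 3 / 2 < t.re → AnalyticAt ℂ S.Ls t := fun t h1 =>
    (Ls_diff hS).analyticAt (hO1.mem_nhds h1)
  have hev : F =ᶠ[nhds ((R + 1 / 2 : ℝ) : ℂ)] (P * S.Ls ^ 2) := by
    have hO2 : IsOpen {t : ℂ | R < t.re ∧ t.re < R + 1} :=
      (isOpen_lt continuous_const Complex.continuous_re).inter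
        (isOpen_lt Complex.continuous_re continuous_const)
    refine Filter.mem_of_superset (hO2.mem_nhds ?_) fun t ht => ?_
    · constructor
      · rw [Complex.ofReal_re]
        linarith
      · rw [Complex.ofReal_re]
        linarith
    · have h := hF2 t ht.1 ht.2
      change F t = P t * S.Ls t ^ 2
      rw [hP]
      exact h
  have hpt : ((R + 1 / 2 : ℝ) : ℂ) ∈ {t : ℂ | 3 / 2 < t.re ∧ t.re < R + 1} := by
    constructor
    · rw [Complex.ofReal_re]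
      linarith
    · rw [Complex.ofReal_re]
      linarith
  have hEq : Set.EqOn F (P * S.Ls ^ 2) {t : ℂ | 3 / 2 < t.re ∧ t.re < R + 1} :=
    AnalyticOnNhd.eqOn_of_preconnected_of_eventuallyEq
      (fun t ht => hFA t (by linarith [ht.1]) ht.2)
      (fun t ht => (hPd.analyticAt t).mul ((hSA t ht.1).pow 2)) hconv.isPreconnected hpt hev
  -- orders are finite
  have hFz : AnalyticAt ℂ F z := hFA z hz0 hzR
  have hFt : analyticOrderAt F z ≠ ⊤ := fun h => by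
    rw [h] at hcon
    exact absurd hcon (by simp)
  have hcz : Filter.Tendsto (fun δ : ℝ => z + (δ : ℂ)) (nhdsWithin 0 (Set.Ioi 0)) (nhds z) := by
    have h1 : Continuous fun δ : ℝ => z + (δ : ℂ) :=
      continuous_const.add Complex.continuous_ofReal
    have h2 : Filter.Tendsto (fun δ : ℝ => z + (δ : ℂ)) (nhds 0) (nhds (z + ((0 : ℝ) : ℂ))) :=
      h1.tendsto 0
    rw [Complex.ofReal_zero, add_zero] at h2
    exact h2.mono_left nhdsWithin_le_nhds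
  have hpos : ∀ᶠ δ : ℝ in nhdsWithin 0 (Set.Ioi 0), 0 < δ :=
    Filter.eventually_of_mem self_mem_nhdsWithin fun δ h => h
  have hre : ∀ δ : ℝ, (z + (δ : ℂ)).re = 3 / 2 + δ := by
    intro δ
    rw [Complex.add_re, Complex.ofReal_re, hz]
  have hPt : analyticOrderAt P z ≠ ⊤ := fun h => by
    rw [analyticOrderAt_eq_top] at h
    obtain ⟨δ, h1, h2⟩ := ((hcz.eventually h).and hpos).exists
    rw [hP] at h1
    refine hPne (z + (δ : ℂ)) ?_ h1
    rw [hre]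
    intro h3
    linarith
  obtain ⟨F1, hF1A, hF1z, hF1⟩ := (hFz.analyticOrderAt_ne_top).1 hFt
  obtain ⟨P1, hP1A, hP1z, hP1⟩ := (hPA.analyticOrderAt_ne_top).1 hPt
  have hml : analyticOrderNatAt F z < analyticOrderNatAt P z := by
    rw [← Nat.cast_analyticOrderNatAt hFt, ← Nat.cast_analyticOrderNatAt hPt] at hcon
    exact_mod_cast hcon
  obtain ⟨m, hm⟩ : ∃ m, m = analyticOrderNatAt F z := ⟨_, rfl⟩
  obtain ⟨l, hl'⟩ : ∃ l, l = analyticOrderNatAt P z := ⟨_, rfl⟩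
  rw [← hm] at hF1 hml
  rw [← hl'] at hP1 hml
  obtain ⟨Qd, hQd⟩ : ∃ Qd : ℂ → ℂ, Qd = fun t =>
      ∏ v ∈ E, (1 - (a (nrm v) : ℂ) * (nrm v : ℂ) ^ (-t) + (nrm v : ℂ) ^ (1 - 2 * t)) := ⟨_, rfl⟩
  have hqE : ∀ v ∈ E, 101 ≤ nrm v := fun v hv => nrm_away K T hT v (hE v hv)
  have hQdd : Differentiable ℂ Qd := by
    intro t
    rw [hQd]
    refine DifferentiableAt.fun_finsetProd fun v hv => ?_
    have := hqE v hv
    exact op_quad_diff a (q := nrm v) (by omega) t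
  have hLTS : ∀ t : ℂ, 3 / 2 < t.re → LT K a T t * Qd t = S.Ls t := by
    intro t ht
    have h8 : (∏ v ∈ E, efac a (nrm v) t) * Qd t = 1 := by
      rw [hQd]
      simp only
      rw [← Finset.prod_mul_distrib]
      refine Finset.prod_eq_one fun v hv => ?_
      unfold efac
      exact inv_mul_cancel₀ (op_quad_ne ha (hqE v hv) (by linarith))
    rw [hLs t ht, mul_assoc, h8, mul_one]
  have hF1n : 0 < ‖F1 z‖ := norm_pos_iff.2 hF1z
  -- eventual bounds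
  have e1 : ∀ᶠ δ : ℝ in nhdsWithin 0 (Set.Ioi 0), ‖F1 z‖ / 2 < ‖F1 (z + δ)‖ := by
    have h1 : Filter.Tendsto (fun t => ‖F1 t‖) (nhds z) (nhds ‖F1 z‖) :=
      hF1A.continuousAt.norm
    exact hcz.eventually (h1.eventually_const_lt (by linarith))
  have e2 : ∀ᶠ δ : ℝ in nhdsWithin 0 (Set.Ioi 0), ‖P1 (z + δ)‖ < ‖P1 z‖ + 1 := by
    have h1 : Filter.Tendsto (fun t => ‖P1 t‖) (nhds z) (nhds ‖P1 z‖) :=
      hP1A.continuousAt.norm
    exact hcz.eventually (h1.eventually_lt_const (by linarith))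
  have e3 : ∀ᶠ δ : ℝ in nhdsWithin 0 (Set.Ioi 0), ‖Qd (z + δ)‖ < ‖Qd z‖ + 1 := by
    have h1 : Filter.Tendsto (fun t => ‖Qd t‖) (nhds z) (nhds ‖Qd z‖) :=
      (hQdd z).continuousAt.norm
    exact hcz.eventually (h1.eventually_lt_const (by linarith))
  have e4 := hcz.eventually hF1
  have e5 := hcz.eventually hP1
  have e6 : ∀ᶠ δ : ℝ in nhdsWithin 0 (Set.Ioi 0), δ < 1 := by
    refine Filter.Eventually.filter_mono nhdsWithin_le_nhds ?_
    exact (continuous_id.tendsto (0 : ℝ)).eventually_lt_const (by norm_num)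
  have hall := ((((e1.and e2).and e3).and e4).and e5).and e6
  rw [eventually_nhdsWithin_iff] at hall
  obtain ⟨r, hr, hball⟩ := Metric.eventually_nhds_iff.1 hall
  have hD : 0 < ‖Qd z‖ + 1 := by positivity
  have hC : 0 < ‖P1 z‖ + 1 := by positivity
  refine hedge z (‖F1 z‖ / 2 / (‖P1 z‖ + 1) / (‖Qd z‖ + 1) ^ 2) (r / 2) hz (by positivity)
    (by linarith) fun δ hδ hδr => ?_
  have hd : dist δ 0 < r := by
    rw [Real.dist_0_eq_abs, abs_of_pos hδ]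
    linarith
  obtain ⟨⟨⟨⟨⟨b1, b2⟩, b3⟩, b4⟩, b5⟩, b6⟩ := hball hd hδ
  have hst : 3 / 2 < (z + (δ : ℂ)).re := by
    rw [hre]
    linarith
  have hst2 : (z + (δ : ℂ)).re < R + 1 := by
    rw [hre]
    linarith
  have h1 := hEq (show z + (δ : ℂ) ∈ {t : ℂ | 3 / 2 < t.re ∧ t.re < R + 1} from ⟨hst, hst2⟩)
  have h2 : F (z + δ) = P (z + δ) * S.Ls (z + δ) ^ 2 := h1
  rw [b4, b5] at h2
  have e0 : z + (δ : ℂ) - z = (δ : ℂ) := by ring
  simp only [smul_eq_mul, e0] at h2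
  have hδC : (δ : ℂ) ≠ 0 := by exact_mod_cast hδ.ne'
  obtain ⟨k, hk⟩ := Nat.exists_eq_add_of_lt hml
  have h3 : F1 (z + δ) = (δ : ℂ) ^ (k + 1) * P1 (z + δ) * S.Ls (z + δ) ^ 2 := by
    have h4 : (δ : ℂ) ^ l = (δ : ℂ) ^ m * (δ : ℂ) ^ (k + 1) := by
      rw [← pow_add, hk]
      congr 1
    rw [h4] at h2
    refine mul_left_cancel₀ (pow_ne_zero m hδC) ?_
    rw [h2]
    ring
  have h5 : ‖F1 (z + δ)‖ = δ ^ (k + 1) * ‖P1 (z + δ)‖ * ‖S.Ls (z + δ)‖ ^ 2 := by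
    rw [h3, norm_mul, norm_mul, norm_pow, norm_pow, Complex.norm_real, Real.norm_eq_abs,
      abs_of_pos hδ]
  have h6 : δ ^ (k + 1) ≤ δ := by
    calc δ ^ (k + 1) = δ ^ k * δ := pow_succ δ k
      _ ≤ 1 * δ := by
        refine mul_le_mul_of_nonneg_right (pow_le_one₀ hδ.le b6.le) hδ.le
      _ = δ := one_mul δ
  have h7 : ‖S.Ls (z + δ)‖ ≤ ‖LT K a T (z + δ)‖ * (‖Qd z‖ + 1) := by
    rw [← hLTS (z + δ) hst, norm_mul]
    exact mul_le_mul_of_nonneg_left b3.le (norm_nonneg _)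
  have h8 : ‖S.Ls (z + δ)‖ ^ 2 ≤ (‖LT K a T (z + δ)‖ * (‖Qd z‖ + 1)) ^ 2 :=
    pow_le_pow_left₀ (norm_nonneg _) h7 2
  have h9 : ‖F1 z‖ / 2 ≤ δ * (‖P1 z‖ + 1) * (‖LT K a T (z + δ)‖ * (‖Qd z‖ + 1)) ^ 2 := by
    calc ‖F1 z‖ / 2 ≤ ‖F1 (z + δ)‖ := b1.le
      _ = δ ^ (k + 1) * ‖P1 (z + δ)‖ * ‖S.Ls (z + δ)‖ ^ 2 := h5
      _ ≤ δ * (‖P1 z‖ + 1) * (‖LT K a T (z + δ)‖ * (‖Qd z‖ + 1)) ^ 2 := by
        refine mul_le_mul (mul_le_mul h6 b2.le (norm_nonneg _) hδ.le) h8 (by positivity)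
          (by positivity)
  rw [div_le_iff₀ (by positivity), div_le_iff₀ hC]
  calc ‖F1 z‖ / 2 ≤ δ * (‖P1 z‖ + 1) * (‖LT K a T (z + δ)‖ * (‖Qd z‖ + 1)) ^ 2 := h9
    _ = δ * ‖LT K a T (z + δ)‖ ^ 2 * (‖Qd z‖ + 1) ^ 2 * (‖P1 z‖ + 1) := by ring

end Pool.Agent.MD
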