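import Mathlib

/-!
# MD/E-Bes: a contradiction from Bessel's inequality

Generalises `cs_contra` (LD/E/Cs.lean): with `L = log (1/δ)`, `p_v = N_v^(-(1+δ))`, `t = √(1 + n)` and `|y| ≤ t/2 + y²/(2 t)`,
`(1 + n) (κ L - C) ≤ ∑' v, m δ v * (1 - ∑ i, χ i v) ≤ B t L + C'`, which is false for small `δ` since `(1 + n) κ > B t`.
-/

namespace Pool.Agent.MD

private theorem sq_offDiag {n : ℕ} (f : Fin n → ℝ) :
    (∑ i, f i) ^ 2 = ∑ i, f i ^ 2 + ∑ x ∈ (Finset.univ : Finset (Fin n)).offDiag, f x.1 * f x.2 := by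
  have h1 : (∑ i, f i) ^ 2 = ∑ x ∈ (Finset.univ : Finset (Fin n)) ×ˢ Finset.univ, f x.1 * f x.2 := by
    rw [sq, Finset.sum_mul_sum, Finset.sum_product]
  rw [h1, ← Finset.diag_union_offDiag, Finset.sum_union (Finset.disjoint_diag_offDiag _), Finset.sum_diag]
  simp only [sq]

private theorem bes_alg {n : ℕ} (f : Fin n → ℝ) (hf : ∀ i, |f i| ≤ 1) {t : ℝ} (ht : 0 < t)
    (ht2 : t ^ 2 = 1 + n) :
    |1 - ∑ i, f i| ≤ t - (1 / t) * ∑ i, f i +
      (1 / (2 * t)) * ∑ x ∈ (Finset.univ : Finset (Fin n)).offDiag, f x.1 * f x.2 := by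
  have h1 : ∑ i, f i ^ 2 ≤ n := by
    calc ∑ i, f i ^ 2 ≤ ∑ _i : Fin n, (1 : ℝ) := by
          refine Finset.sum_le_sum fun i _ => ?_
          rw [← sq_abs]
          exact pow_le_one₀ (abs_nonneg _) (hf i)
      _ = n := by simp
  have h2 := sq_offDiag f
  obtain ⟨S, hS⟩ : ∃ S, S = ∑ i, f i := ⟨_, rfl⟩
  obtain ⟨D, hD⟩ : ∃ D, D = ∑ x ∈ (Finset.univ : Finset (Fin n)).offDiag, f x.1 * f x.2 := ⟨_, rfl⟩
  rw [← hS, ← hD] at h2
  rw [← hS, ← hD]
  have h3 : (|1 - S|) ^ 2 ≤ t ^ 2 - 2 * S + D := by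
    rw [sq_abs, ht2]
    nlinarith
  have h4 : 2 * t * |1 - S| ≤ t ^ 2 + (|1 - S|) ^ 2 := by
    nlinarith [sq_nonneg (t - |1 - S|)]
  have h5 : t - (1 / t) * S + (1 / (2 * t)) * D = (2 * t ^ 2 - 2 * S + D) / (2 * t) := by
    field_simp
  rw [h5, le_div_iff₀ (by positivity)]
  linarith

theorem bessel {ι : Type} {n : ℕ} (N : ι → ℝ) {B κ : ℝ} (hB : 0 ≤ B) (hκ : 0 < κ)
    (hn : B ^ 2 < (1 + n) * κ ^ 2) (hN : ∀ v, 1 ≤ N v)
    (hsum : ∀ x : ℝ, 1 < x → Summable fun v => N v ^ (-x)) (χ : Fin n → ι → ℝ)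
    (hχ : ∀ i v, |χ i v| ≤ 1) (m : ℝ → ι → ℝ) (hm : ∀ δ v, |m δ v| ≤ B * N v ^ (-(1 + δ)))
    {C δ0 : ℝ} (hδ0 : 0 < δ0)
    (h0 : ∀ δ : ℝ, 0 < δ → δ ≤ δ0 → ∑' v, N v ^ (-(1 + δ)) ≤ Real.log (1 / δ) + C)
    (h1 : ∀ (i : Fin n) (δ : ℝ), 0 < δ → δ ≤ δ0 → |∑' v, χ i v * N v ^ (-(1 + δ))| ≤ C)
    (h2 : ∀ (i j : Fin n) (δ : ℝ), i ≠ j → 0 < δ → δ ≤ δ0 →
      |∑' v, (χ i v * χ j v) * N v ^ (-(1 + δ))| ≤ C)
    (h3 : ∀ δ : ℝ, 0 < δ → δ ≤ δ0 → κ * Real.log (1 / δ) - C ≤ ∑' v, m δ v)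
    (h4 : ∀ (i : Fin n) (δ : ℝ), 0 < δ → δ ≤ δ0 →
      ∑' v, χ i v * m δ v ≤ -(κ * Real.log (1 / δ)) + C) : False := by
  obtain ⟨t, ht0⟩ : ∃ t : ℝ, t = Real.sqrt (1 + n) := ⟨_, rfl⟩
  have hn0 : (0 : ℝ) < 1 + n := by positivity
  have ht : 0 < t := by rw [ht0]; exact Real.sqrt_pos.2 hn0
  have ht2 : t ^ 2 = 1 + n := by rw [ht0]; exact Real.sq_sqrt hn0.le
  have hgap : 0 < (1 + n) * κ - B * t := by
    have e1 : (B * t) ^ 2 < ((1 + n) * κ) ^ 2 := by
      rw [mul_pow, ht2, mul_pow]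
      nlinarith
    have e2 := lt_of_pow_lt_pow_left₀ 2 (by positivity) e1
    linarith
  obtain ⟨K, hK⟩ : ∃ K : ℝ, K = (1 + n) * C + B * (t * C + (1 / t) * (n * |C|) +
      (1 / (2 * t)) * ((Finset.univ : Finset (Fin n)).offDiag.card * |C|)) := ⟨_, rfl⟩
  have key : ∀ δ : ℝ, 0 < δ → δ ≤ δ0 → ((1 + n) * κ - B * t) * Real.log (1 / δ) ≤ K := by
    intro δ hδ hδ'
    have hN0 : ∀ v, 0 < N v := fun v => lt_of_lt_of_le one_pos (hN v)
    obtain ⟨p, hp⟩ : ∃ p : ι → ℝ, p = fun v => N v ^ (-(1 + δ)) := ⟨_, rfl⟩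
    have hpv : ∀ v, N v ^ (-(1 + δ)) = p v := fun v => by rw [hp]
    have hp0 : ∀ v, 0 ≤ p v := fun v => by rw [← hpv]; exact Real.rpow_nonneg (hN0 v).le _
    have hps : Summable p := by
      rw [hp]
      exact hsum (1 + δ) (by linarith)
    have hbd : ∀ v, |m δ v| ≤ B * p v := fun v => by rw [← hpv]; exact hm δ v
    have hs0 : Summable fun v => m δ v := by
      refine Summable.of_norm_bounded (hps.mul_left B) fun v => ?_
      rw [Real.norm_eq_abs]
      exact hbd v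
    have hsi : ∀ i, Summable fun v => χ i v * m δ v := by
      intro i
      refine Summable.of_norm_bounded (hps.mul_left B) fun v => ?_
      rw [Real.norm_eq_abs, abs_mul]
      refine le_trans ?_ (hbd v)
      have e1 : |χ i v| * |m δ v| ≤ 1 * |m δ v| :=
        mul_le_mul_of_nonneg_right (hχ i v) (abs_nonneg _)
      rwa [one_mul] at e1
    have hti : ∀ i, Summable fun v => χ i v * p v := by
      intro i
      refine Summable.of_norm_bounded hps fun v => ?_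
      rw [Real.norm_eq_abs, abs_mul, abs_of_nonneg (hp0 v)]
      have e1 := mul_le_mul_of_nonneg_right (hχ i v) (hp0 v)
      rwa [one_mul] at e1
    have htij : ∀ i j, Summable fun v => (χ i v * χ j v) * p v := by
      intro i j
      refine Summable.of_norm_bounded hps fun v => ?_
      rw [Real.norm_eq_abs, abs_mul, abs_mul, abs_of_nonneg (hp0 v)]
      have e1 : |χ i v| * |χ j v| ≤ 1 := mul_le_one₀ (hχ i v) (abs_nonneg _) (hχ j v)
      have e2 := mul_le_mul_of_nonneg_right e1 (hp0 v)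
      rwa [one_mul] at e2
    have g0 := h0 δ hδ hδ'
    have g1 := fun i => h1 i δ hδ hδ'
    have g2 := fun i j hij => h2 i j δ hij hδ hδ'
    have g3 := h3 δ hδ hδ'
    have g4 := fun i => h4 i δ hδ hδ'
    simp only [hpv] at g0 g1 g2
    have HL := hs0.hasSum.sub (hasSum_sum (s := (Finset.univ : Finset (Fin n))) fun i _ => (hsi i).hasSum)
    have HR := (((hps.hasSum.mul_left t).sub ((hasSum_sum (s := (Finset.univ : Finset (Fin n)))
      fun i _ => (hti i).hasSum).mul_left (1 / t))).add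
      ((hasSum_sum (s := (Finset.univ : Finset (Fin n)).offDiag)
      fun x _ => (htij x.1 x.2).hasSum).mul_left (1 / (2 * t)))).mul_left B
    have hle := hasSum_le (fun v => ?_) HL HR
    · have c1 : ∑ i, ∑' v, χ i v * m δ v ≤ ∑ _i : Fin n, (-(κ * Real.log (1 / δ)) + C) :=
        Finset.sum_le_sum fun i _ => g4 i
      have c2 : -(n * |C|) ≤ ∑ i, ∑' v, χ i v * p v := by
        have e1 : ∑ _i : Fin n, (-|C|) ≤ ∑ i, ∑' v, χ i v * p v :=
          Finset.sum_le_sum fun i _ => by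
            have := (abs_le.1 (g1 i)).1
            have := le_abs_self C
            linarith
        simp only [Finset.sum_const, Finset.card_univ, Fintype.card_fin, nsmul_eq_mul] at e1
        linarith
      have c3 : ∑ x ∈ (Finset.univ : Finset (Fin n)).offDiag, ∑' v, (χ x.1 v * χ x.2 v) * p v ≤
          (Finset.univ : Finset (Fin n)).offDiag.card * |C| := by
        have e1 : ∑ x ∈ (Finset.univ : Finset (Fin n)).offDiag, ∑' v, (χ x.1 v * χ x.2 v) * p v ≤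
          ∑ _x ∈ (Finset.univ : Finset (Fin n)).offDiag, |C| := by
          refine Finset.sum_le_sum fun x hx => ?_
          have e2 := (abs_le.1 (g2 x.1 x.2 (Finset.mem_offDiag.1 hx).2.2)).2
          exact le_trans e2 (le_abs_self C)
        rwa [Finset.sum_const, nsmul_eq_mul] at e1
      simp only [Finset.sum_const, Finset.card_univ, Fintype.card_fin, nsmul_eq_mul] at c1
      have d1 : t * ∑' v, p v ≤ t * (Real.log (1 / δ) + C) := mul_le_mul_of_nonneg_left g0 ht.le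
      have d2 : (1 / t) * -(n * |C|) ≤ (1 / t) * ∑ i, ∑' v, χ i v * p v :=
        mul_le_mul_of_nonneg_left c2 (by positivity)
      have d3 := mul_le_mul_of_nonneg_left c3 (by positivity : (0 : ℝ) ≤ 1 / (2 * t))
      have d4 : B * (t * ∑' v, p v - (1 / t) * ∑ i, ∑' v, χ i v * p v + (1 / (2 * t)) *
          ∑ x ∈ (Finset.univ : Finset (Fin n)).offDiag, ∑' v, (χ x.1 v * χ x.2 v) * p v) ≤
          B * (t * (Real.log (1 / δ) + C) + (1 / t) * (n * |C|) +
          (1 / (2 * t)) * ((Finset.univ : Finset (Fin n)).offDiag.card * |C|)) :=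
        mul_le_mul_of_nonneg_left (by linarith) hB
      have d5 := hle.trans d4
      rw [hK]
      have d6 : B * (t * (Real.log (1 / δ) + C) + (1 / t) * (n * |C|) +
          (1 / (2 * t)) * ((Finset.univ : Finset (Fin n)).offDiag.card * |C|)) =
          B * t * Real.log (1 / δ) + B * (t * C + (1 / t) * (n * |C|) +
      (1 / (2 * t)) * ((Finset.univ : Finset (Fin n)).offDiag.card * |C|)) := by ring
      rw [d6] at d5
      linarith
    · have e1 := bes_alg (fun i => χ i v) (fun i => hχ i v) ht ht2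
      have e2 : m δ v - ∑ i, χ i v * m δ v = m δ v * (1 - ∑ i, χ i v) := by
        rw [← Finset.sum_mul]
        ring
      have e3 : m δ v * (1 - ∑ i, χ i v) ≤ (B * p v) * |1 - ∑ i, χ i v| := by
        refine (le_abs_self _).trans ?_
        rw [abs_mul]
        exact mul_le_mul_of_nonneg_right (hbd v) (abs_nonneg _)
      have e4 := mul_le_mul_of_nonneg_left e1 (mul_nonneg hB (hp0 v))
      rw [e2]
      refine e3.trans (e4.trans (le_of_eq ?_))
      rw [← Finset.sum_mul, ← Finset.sum_mul]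
      ring
  obtain ⟨M, hM⟩ : ∃ M : ℝ, M = K / ((1 + n) * κ - B * t) := ⟨_, rfl⟩
  obtain ⟨δ, hδ⟩ : ∃ δ, δ = min δ0 (Real.exp (-(M + 1))) := ⟨_, rfl⟩
  have hδp : 0 < δ := by
    rw [hδ]
    exact lt_min hδ0 (Real.exp_pos _)
  have h5 := key δ hδp (by rw [hδ]; exact min_le_left _ _)
  have h6 : Real.log δ ≤ -(M + 1) := by
    rw [← Real.log_exp (-(M + 1))]
    exact Real.log_le_log hδp (by rw [hδ]; exact min_le_right _ _)
  rw [one_div, Real.log_inv] at h5
  have h7 : -Real.log δ ≤ M := by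
    rw [hM, le_div_iff₀ hgap]
    linarith
  linarith

end Pool.Agent.MD
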